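import Pool.Agent.J4H48.HN.Stm

set_option autoImplicit false

open Polynomial IntermediateField

namespace Pool.Agent.J4H62.HN

open Pool.Agent.J4H48.HN

theorem hasPer_root (D q : ℕ) (hD : 1 ≤ D) (hq : 1 ≤ q) (j : ℕ) :
    HasPer (X ^ (D * q)) 1 (-1) (-((j : ℤ) ^ q)) D := by
  obtain ⟨y, hy⟩ := IsAlgClosed.exists_pow_nat_eq (j : ℂ) (show 0 < D by omega)
  have hroot : aeval y (X ^ D - C (j : ℚ) : ℚ[X]) = 0 := by
    simp [hy]
  have hmon : (X ^ D - C (j : ℚ) : ℚ[X]).Monic := monic_X_pow_sub_C _ (by omega)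
  have hint : IsIntegral ℚ y := ⟨_, hmon, by simpa [aeval_def] using hroot⟩
  refine ⟨ℚ⟮y⟯, IntermediateField.adjoin.finiteDimensional hint, ?_, (y, y),
    IntermediateField.mem_adjoin_simple_self ℚ y, IntermediateField.mem_adjoin_simple_self ℚ y,
    1, le_rfl, ?_⟩
  · rw [IntermediateField.adjoin.finrank hint]
    refine (Polynomial.natDegree_le_of_dvd (minpoly.dvd ℚ y hroot) hmon.ne_zero).trans ?_
    rw [natDegree_X_pow_sub_C]
  · rw [Function.iterate_one]
    simp only [henon, map_pow, aeval_X]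
    rw [pow_mul, hy]
    simp

theorem t_SHARP : S_SHARP := by
  intro D q hD hq _ k
  set A : Set ℤ := {c : ℤ | 1 - (k : ℤ) ^ q ≤ c ∧ c < 1 - (k : ℤ) ^ q + (k ^ q : ℕ) ∧
    HasPer (X ^ (D * q)) 1 (-1) c D} with hA
  have hfin : A.Finite := (Set.finite_Ico (1 - (k : ℤ) ^ q)
    (1 - (k : ℤ) ^ q + (k ^ q : ℕ))).subset fun c hc => ⟨hc.1, hc.2.1⟩
  have hinj : Function.Injective (fun j : ℕ => -((j : ℤ) ^ q)) := by
    intro a b hab
    simp only [neg_inj] at hab
    have h1 : (a ^ q : ℕ) = b ^ q := by exact_mod_cast hab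
    exact Nat.pow_left_injective (by omega) h1
  have hsub : ((Finset.range k).image (fun j : ℕ => -((j : ℤ) ^ q)) : Set ℤ) ⊆ A := by
    intro c hc
    rw [Finset.mem_coe, Finset.mem_image] at hc
    obtain ⟨j, hj, rfl⟩ := hc
    rw [Finset.mem_range] at hj
    have h1 : (j : ℤ) ^ q < (k : ℤ) ^ q := by
      have : j ^ q < k ^ q := Nat.pow_lt_pow_left hj (by omega)
      exact_mod_cast this
    have h2 : (0 : ℤ) ≤ (j : ℤ) ^ q := by positivity
    refine ⟨by omega, ?_, hasPer_root D q hD hq j⟩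
    push_cast
    omega
  have h3 := Set.ncard_le_ncard hsub hfin
  rwa [Set.ncard_coe_finset, Finset.card_image_of_injective _ hinj, Finset.card_range] at h3

end Pool.Agent.J4H62.HN
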